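import Pool.Agent.H56.GL.Graph

set_option autoImplicit false
set_option linter.unusedSectionVars false

/-!
# Queries which read two bits

A non-constant function of at most two bits is, up to negation, the sum of two of the bits
`0, x 0, …, x (n-1)` or a conjunction of two literals. If all patterns of answers to the queries of a
set `F` occur, then the pairs of bits which they read have no cycle.
-/

namespace Pool.Agent.H56.QU

open Finset Pool.Agent.H56.GL

/-- the bits `0, x 0, …, x (n-1)` -/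
def ex {n : ℕ} (x : Fin n → Bool) : Fin (n + 1) → Bool := Fin.cons false x

@[simp] lemma ex_zero {n : ℕ} (x : Fin n → Bool) : ex x 0 = false := rfl

@[simp] lemma ex_succ {n : ℕ} (x : Fin n → Bool) (v : Fin n) : ex x v.succ = x v := rfl

/-- the answer `g` is determined by the bits `u` and `w` -/
def Reads {n : ℕ} (g : (Fin n → Bool) → Bool) (u w : Fin n) : Prop :=
  ∀ x y, x u = y u → x w = y w → g x = g y

/-- `f` is the sum of the bits `s` and `t` up to a constant -/
def Flex {n : ℕ} (g : (Fin n → Bool) → Bool) (s t : Fin (n + 1)) : Prop :=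
  ∃ c, ∀ x, g x = xor (xor (ex x s) (ex x t)) c

/-- the data of a conjunction of two literals -/
structure Conj (n : ℕ) where
  u : Fin n
  w : Fin n
  ne : u ≠ w
  a : Bool
  b : Bool

/-- the conjunction is satisfied -/
def Conj.sat {n : ℕ} (d : Conj n) (x : Fin n → Bool) : Prop := x d.u = d.a ∧ x d.w = d.b

/-- the conjunction reads the bit `v` -/
def Conj.at {n : ℕ} (d : Conj n) (v : Fin n) : Prop := v = d.u ∨ v = d.w

lemma Conj.agree {n : ℕ} {d : Conj n} {v : Fin n} (h : d.at v) {x y : Fin n → Bool}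
    (hx : d.sat x) (hy : d.sat y) : x v = y v := by
  rcases h with rfl | rfl
  · exact hx.1.trans hy.1.symm
  · exact hx.2.trans hy.2.symm

/-- the function is the conjunction or its negation -/
def Rigid {n : ℕ} (g : (Fin n → Bool) → Bool) (d : Conj n) : Prop :=
  ∃ c, ∀ x, (g x = c ↔ d.sat x)

lemma tab1 : ∀ G : Bool → Bool, (∃ c, ∀ a, G a = c) ∨ (∃ c, ∀ a, G a = xor a c) := by decide

lemma tab2 : ∀ G : Bool → Bool → Bool,
    (∃ c, ∀ a b, G a b = c) ∨ (∃ c, ∀ a b, G a b = xor a c) ∨ (∃ c, ∀ a b, G a b = xor b c) ∨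
    (∃ c, ∀ a b, G a b = xor (xor a b) c) ∨
    (∃ p q c, ∀ a b, G a b = c ↔ (a = p ∧ b = q)) := by decide

theorem classify {n : ℕ} {g : (Fin n → Bool) → Bool} (h : ∃ u w, Reads g u w)
    (hnc : ∃ x y, g x ≠ g y) :
    (∃ s t : Fin (n + 1), s ≠ t ∧ Flex g s t) ∨ ∃ d : Conj n, Rigid g d := by
  obtain ⟨u, w, hr⟩ := h
  obtain ⟨x0, y0, hxy⟩ := hnc
  by_cases huw : u = w
  · subst huw
    have hG : ∀ x, g x = g (fun _ => x u) := fun x => hr _ _ rfl rfl
    rcases tab1 (fun a => g (fun _ => a)) with ⟨c, hc⟩ | ⟨c, hc⟩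
    · exfalso
      rw [hG x0, hG y0, hc, hc] at hxy
      exact hxy rfl
    · left
      refine ⟨u.succ, 0, Fin.succ_ne_zero _, c, fun x => ?_⟩
      rw [hG, hc]
      simp
  · have hG : ∀ x, g x = g (fun v => if v = u then x u else x w) := by
      intro x
      refine hr _ _ ?_ ?_
      · simp
      · simp [Ne.symm huw]
    rcases tab2 (fun a b => g (fun v => if v = u then a else b)) with
      ⟨c, hc⟩ | ⟨c, hc⟩ | ⟨c, hc⟩ | ⟨c, hc⟩ | ⟨p, q, c, hc⟩
    · exfalso
      rw [hG x0, hG y0, hc, hc] at hxy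
      exact hxy rfl
    · left
      refine ⟨u.succ, 0, Fin.succ_ne_zero _, c, fun x => ?_⟩
      rw [hG, hc]
      simp
    · left
      refine ⟨w.succ, 0, Fin.succ_ne_zero _, c, fun x => ?_⟩
      rw [hG, hc]
      simp
    · left
      refine ⟨u.succ, w.succ, fun h => huw (Fin.succ_injective _ h), c, fun x => ?_⟩
      rw [hG, hc]
      simp
    · right
      refine ⟨⟨u, w, huw, p, q⟩, c, fun x => ?_⟩
      rw [hG]
      exact hc _ _

/-- every pattern of answers to the queries in `F` occurs -/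
def Sh {n : ℕ} {ι : Type} (f : ι → (Fin n → Bool) → Bool) (F : Finset ι) : Prop :=
  ∀ y : ι → Bool, ∃ x, ∀ e ∈ F, f e x = y e

lemma Sh.mono {n : ℕ} {ι : Type} {f : ι → (Fin n → Bool) → Bool} {F F' : Finset ι}
    (h : Sh f F) (hF : F' ⊆ F) : Sh f F' := by
  intro y
  obtain ⟨x, hx⟩ := h y
  exact ⟨x, fun e he => hx e (hF he)⟩

lemma Sh.nonconst {n : ℕ} {ι : Type} {f : ι → (Fin n → Bool) → Bool} {F : Finset ι}
    (h : Sh f F) {e : ι} (he : e ∈ F) : ∃ x y, f e x ≠ f e y := by
  obtain ⟨x, hx⟩ := h (fun _ => true)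
  obtain ⟨y, hy⟩ := h (fun _ => false)
  refine ⟨x, y, ?_⟩
  rw [hx e he, hy e he]
  simp

/-- the value of a bit -/
def vl (b : Bool) : ZMod 2 := if b then 1 else 0

lemma vl_xor (a b : Bool) : vl (xor a b) = vl a + vl b := by
  revert a b
  decide

lemma telescope (g : ℕ → ZMod 2) (l : ℕ) : ∑ i ∈ range l, (g i + g (i + 1)) = g 0 + g l := by
  induction l with
  | zero => rw [Finset.sum_range_zero]; exact (CharTwo.add_self_eq_zero _).symm
  | succ l ih =>
    rw [Finset.sum_range_succ, ih]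
    have : g l + g l = 0 := CharTwo.add_self_eq_zero _
    linear_combination this

/-- the edge of a query: the sum of two bits, or a conjunction of two literals -/
def EdgeOf {n : ℕ} (g : (Fin n → Bool) → Bool) (s t : Fin (n + 1)) : Prop :=
  Flex g s t ∨ ∃ d : Conj n, Rigid g d ∧ s = d.u.succ ∧ t = d.w.succ

lemma exists_edgeOf {n : ℕ} {g : (Fin n → Bool) → Bool} (h : ∃ u w, Reads g u w)
    (hnc : ∃ x y, g x ≠ g y) : ∃ s t : Fin (n + 1), s ≠ t ∧ EdgeOf g s t := by
  rcases classify h hnc with ⟨s, t, hst, h⟩ | ⟨d, hd⟩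
  · exact ⟨s, t, hst, Or.inl h⟩
  · exact ⟨d.u.succ, d.w.succ, fun h => d.ne (Fin.succ_injective _ h), Or.inr ⟨d, hd, rfl, rfl⟩⟩

/-- an answer which fixes the sum of the ends -/
lemma EdgeOf.force {n : ℕ} {g : (Fin n → Bool) → Bool} {s t : Fin (n + 1)} (h : EdgeOf g s t) :
    ∃ b D, ∀ x, g x = b → xor (ex x s) (ex x t) = D := by
  rcases h with ⟨c, hc⟩ | ⟨d, ⟨c, hc⟩, h1, h2⟩
  · refine ⟨c, false, fun x hx => ?_⟩
    rw [hc] at hx
    have := congrArg (fun z => xor z c) hx
    simpa using this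
  · refine ⟨c, xor d.a d.b, fun x hx => ?_⟩
    obtain ⟨h3, h4⟩ := (hc x).1 hx
    rw [h1, h2, ex_succ, ex_succ, h3, h4]

/-- the query is determined by the ends of its edge -/
lemma EdgeOf.det {n : ℕ} {g : (Fin n → Bool) → Bool} {s t : Fin (n + 1)} (h : EdgeOf g s t)
    {x y : Fin n → Bool} (h1 : ex x s = ex y s) (h2 : ex x t = ex y t) : g x = g y := by
  rcases h with ⟨c, hc⟩ | ⟨d, ⟨c, hc⟩, e1, e2⟩
  · rw [hc, hc, h1, h2]
  · rw [e1, ex_succ, ex_succ] at h1
    rw [e2, ex_succ, ex_succ] at h2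
    have h3 : g x = c ↔ g y = c := by
      rw [hc, hc]
      unfold Conj.sat
      rw [h1, h2]
    revert h3
    cases g x <;> cases g y <;> cases c <;> simp

variable {n : ℕ} {ι : Type} [DecidableEq ι]

/-- two conjunctions can be satisfied together -/
lemma both_sat {f : ι → (Fin n → Bool) → Bool} {F : Finset ι} (hF : Sh f F)
    {e e' : ι} (he : e ∈ F) (he' : e' ∈ F) (hne : e ≠ e') {d d' : Conj n}
    (hd : Rigid (f e) d) (hd' : Rigid (f e') d') : ∃ x, d.sat x ∧ d'.sat x := by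
  obtain ⟨c, hc⟩ := hd
  obtain ⟨c', hc'⟩ := hd'
  obtain ⟨x, hx⟩ := hF (fun j => if j = e then c else c')
  refine ⟨x, (hc x).1 ?_, (hc' x).1 ?_⟩
  · rw [hx e he]; simp
  · rw [hx e' he']; simp [hne.symm]

/-- two conjunctions can be satisfied without a third one -/
lemma two_sat {f : ι → (Fin n → Bool) → Bool} {F : Finset ι} (hF : Sh f F)
    {e e1 e2 : ι} (he : e ∈ F) (he1 : e1 ∈ F) (he2 : e2 ∈ F) (h1 : e1 ≠ e) (h2 : e2 ≠ e)
    {d d1 d2 : Conj n} (hd : Rigid (f e) d)
    (hd1 : Rigid (f e1) d1) (hd2 : Rigid (f e2) d2) (h12 : e1 = e2 → d1 = d2) :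
    ∃ x, ¬ d.sat x ∧ d1.sat x ∧ d2.sat x := by
  obtain ⟨c, hc⟩ := hd
  obtain ⟨c1, hc1⟩ := hd1
  obtain ⟨c2, hc2⟩ := hd2
  obtain ⟨x, hx⟩ := hF (fun j => if j = e then !c else if j = e1 then c1 else c2)
  have hs1 : d1.sat x := (hc1 x).1 (by rw [hx e1 he1]; simp [h1])
  refine ⟨x, fun h => ?_, hs1, ?_⟩
  · have h1 := (hc x).2 h
    rw [hx e he] at h1
    simp at h1
  · by_cases hee : e1 = e2
    · rw [← h12 hee]; exact hs1
    · exact (hc2 x).1 (by rw [hx e2 he2]; simp [h2, Ne.symm hee])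

/-- **Every set of queries for which all patterns of answers occur has no cycle.** -/
theorem noCyc {f : ι → (Fin n → Bool) → Bool} {F : Finset ι} (hF : Sh f F)
    (s t : ι → Fin (n + 1)) (hst : ∀ e ∈ F, EdgeOf (f e) (s e) (t e)) (k : ℕ) :
    NoCyc k s t F := by
  intro l hl2 _ c e hcl hcinj heinj hE
  have hE' : ∀ i < l, (s (e i) = c i ∧ t (e i) = c (i + 1)) ∨
        (s (e i) = c (i + 1) ∧ t (e i) = c i) := fun i hi => (hE i hi).2
  have heF : ∀ i < l, e i ∈ F := fun i hi => (hE i hi).1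
  -- some query of the cycle is a sum
  have hflex : ∃ i < l, Flex (f (e i)) (s (e i)) (t (e i)) := by
    by_contra hcon
    push Not at hcon
    have hR : ∀ i < l, ∃ d : Conj n, Rigid (f (e i)) d ∧ s (e i) = d.u.succ ∧
        t (e i) = d.w.succ := fun i hi =>
      (hst (e i) (heF i hi)).resolve_left (hcon i hi)
    obtain ⟨j, hj, hj1, hjc⟩ : ∃ j < l, j ≠ 1 ∧ (s (e j) = c 2 ∨ t (e j) = c 2) := by
      rcases Nat.lt_or_ge l 3 with h3 | h3
      · have hl : l = 2 := by omega
        subst hl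
        refine ⟨0, by omega, by omega, ?_⟩
        rw [hcl]
        rcases hE' 0 (by omega) with ⟨a1, a2⟩ | ⟨a1, a2⟩
        · exact Or.inl a1
        · exact Or.inr a2
      · refine ⟨2, by omega, by omega, ?_⟩
        rcases hE' 2 (by omega) with ⟨a1, a2⟩ | ⟨a1, a2⟩
        · exact Or.inl a1
        · exact Or.inr a2
    choose dd hdd using hR
    obtain ⟨r0, p0, q0⟩ := hdd 0 (by omega)
    obtain ⟨r1, p1, q1⟩ := hdd 1 (by omega)
    obtain ⟨rj, pj, qj⟩ := hdd j hj
    have n01 : e 0 ≠ e 1 := fun h => absurd (heinj 0 1 (by omega) (by omega) h) (by omega)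
    have nj1 : e j ≠ e 1 := fun h => hj1 (heinj j 1 hj (by omega) h)
    -- `c 1` is an end of `e 0` and `e 1`
    have h0 := hE' 0 (by omega)
    have h1 := hE' 1 (by omega)
    simp only [zero_add] at h0
    rw [show (1 : ℕ) + 1 = 2 from rfl] at h1
    rw [p0, q0] at h0
    rw [p1, q1] at h1
    rw [pj, qj] at hjc
    have inj : ∀ {u w : Fin n} {v : Fin (n + 1)}, u.succ = v → w.succ = v → u = w :=
      fun h1 h2 => Fin.succ_injective _ (h1.trans h2.symm)
    obtain ⟨x, hx0, hx1⟩ := both_sat hF (heF 0 (by omega)) (heF 1 (by omega)) n01 r0 r1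
    obtain ⟨z, hzj, hz1⟩ := both_sat hF (heF j hj) (heF 1 (by omega)) nj1 rj r1
    have hd : e 0 = e j → dd 0 (by omega) = dd j hj := by
      intro h
      have hj0 : 0 = j := heinj 0 j (by omega) hj h
      subst hj0
      rfl
    obtain ⟨y, hy1, hy0, hyj⟩ := two_sat hF (heF 1 (by omega)) (heF 0 (by omega)) (heF j hj)
      n01 nj1 r1 r0 rj hd
    -- the ends of `e 1` have the right values
    have hc1 : ∀ v : Fin n, v.succ = c 1 → y v = x v := by
      intro v hv
      refine Conj.agree ?_ hy0 hx0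
      rcases h0 with ⟨-, a⟩ | ⟨a, -⟩
      · exact Or.inr (inj hv a)
      · exact Or.inl (inj hv a)
    have hc2 : ∀ v : Fin n, v.succ = c 2 → y v = z v := by
      intro v hv
      refine Conj.agree ?_ hyj hzj
      rcases hjc with a | a
      · exact Or.inl (inj hv a)
      · exact Or.inr (inj hv a)
    apply hy1
    rcases h1 with ⟨a1, a2⟩ | ⟨a1, a2⟩
    · exact ⟨(hc1 _ a1).trans hx1.1, (hc2 _ a2).trans hz1.2⟩
    · exact ⟨(hc2 _ a1).trans hz1.1, (hc1 _ a2).trans hx1.2⟩
  obtain ⟨i0, hi0, c0, hc0⟩ := hflex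
  have hforce : ∀ e : ι, ∃ b D, e ∈ F → ∀ x, f e x = b →
      xor (ex x (s e)) (ex x (t e)) = D := by
    intro e
    by_cases he : e ∈ F
    · obtain ⟨b, D, h⟩ := (hst e he).force
      exact ⟨b, D, fun _ => h⟩
    · exact ⟨false, false, fun h => absurd h he⟩
  choose b D hb using hforce
  -- the target
  obtain ⟨T, hT⟩ : ∃ T : Bool, vl T = 1 + ∑ i ∈ (range l).erase i0, vl (D (e i)) := by
    have : ∀ z : ZMod 2, ∃ T : Bool, vl T = z := by decide
    exact this _
  let y : ι → Bool := fun j => if j = e i0 then xor T c0 else b j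
  obtain ⟨x, hx⟩ := hF y
  have hval : ∀ i < l, xor (ex x (c i)) (ex x (c (i + 1))) = if i = i0 then T else D (e i) := by
    intro i hi
    have h1 := hx (e i) (heF i hi)
    have h2 : xor (ex x (c i)) (ex x (c (i + 1))) = xor (ex x (s (e i))) (ex x (t (e i))) := by
      rcases hE' i hi with ⟨a1, a2⟩ | ⟨a1, a2⟩
      · rw [a1, a2]
      · rw [a1, a2, Bool.xor_comm]
    rw [h2]
    by_cases hii : i = i0
    · subst hii
      simp only [y, if_true] at h1 ⊢
      rw [hc0] at h1
      have := congrArg (fun z => xor z c0) h1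
      simpa using this
    · have hne : e i ≠ e i0 := fun h => hii (heinj i i0 hi hi0 h)
      simp only [y, if_neg hne, if_neg hii] at h1 ⊢
      exact hb _ (heF i hi) _ h1
  have h3 : ∑ i ∈ range l, (vl (ex x (c i)) + vl (ex x (c (i + 1)))) = 0 := by
    rw [telescope (fun i => vl (ex x (c i))), hcl]
    exact CharTwo.add_self_eq_zero _
  have h4 : ∑ i ∈ range l, (vl (ex x (c i)) + vl (ex x (c (i + 1)))) =
      ∑ i ∈ range l, vl (if i = i0 then T else D (e i)) := by
    refine Finset.sum_congr rfl (fun i hi => ?_)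
    rw [← vl_xor, hval i (by simpa using hi)]
  rw [h4, ← Finset.add_sum_erase _ _ (show i0 ∈ range l by simpa using hi0)] at h3
  simp only [if_true] at h3
  have h5 : ∑ i ∈ (range l).erase i0, vl (if i = i0 then T else D (e i)) =
      ∑ i ∈ (range l).erase i0, vl (D (e i)) := by
    refine Finset.sum_congr rfl (fun i hi => ?_)
    rw [if_neg (Finset.ne_of_mem_erase hi)]
  rw [h5, hT, add_assoc, CharTwo.add_self_eq_zero, add_zero] at h3
  exact one_ne_zero h3

end Pool.Agent.H56.QU
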