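import Pool.Agent.H56.QU.Cls
import Pool.Agent.H56.GE.Lower

set_option autoImplicit false
set_option linter.unusedSectionVars false

/-!
# Patterns of independent events, sums along a forest
-/

namespace Pool.Agent.H56.QU

open Finset Pool.Agent.H56.GL Pool.Agent.H56.GE

variable {n : ℕ} {ι : Type} [DecidableEq ι]

/-- the probabilities of all patterns -/
lemma pattern (μ : Fin n → Fin 2 → ℝ) (B : ι → Set (Fin n → Fin 2)) (k : ℕ)
    (hind : ∀ F : Finset ι, F.card ≤ k → prob μ (⋂ e ∈ F, B e) = ∏ e ∈ F, prob μ (B e))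
    (Q : Finset ι) : ∀ P : Finset ι, Disjoint P Q → (P ∪ Q).card ≤ k →
      prob μ ((⋂ e ∈ P, B e) ∩ ⋂ e ∈ Q, (B e)ᶜ) =
        (∏ e ∈ P, prob μ (B e)) * ∏ e ∈ Q, (1 - prob μ (B e)) := by
  induction Q using Finset.induction_on with
  | empty =>
    intro P _ hP
    rw [Finset.union_empty] at hP
    simp [hind P hP]
  | insert q Q hq ih =>
    intro P hPQ hcard
    have hqP : q ∉ P := fun h => Finset.disjoint_left.1 hPQ h (Finset.mem_insert_self _ _)
    have hPQ' : Disjoint P Q := hPQ.mono_right (Finset.subset_insert _ _)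
    have h1 := ih P hPQ' ((Finset.card_le_card
      (Finset.union_subset_union_right (Finset.subset_insert _ _))).trans hcard)
    have h2 := ih (insert q P) (by
      rw [Finset.disjoint_insert_left]
      exact ⟨hq, hPQ'⟩) (by
      rw [Finset.insert_union, ← Finset.union_insert]
      exact hcard)
    have h3 := prob_add μ ((⋂ e ∈ P, B e) ∩ ⋂ e ∈ Q, (B e)ᶜ) (B q)
    have h4 : ((⋂ e ∈ P, B e) ∩ ⋂ e ∈ Q, (B e)ᶜ) ∩ B q =
        (⋂ e ∈ insert q P, B e) ∩ ⋂ e ∈ Q, (B e)ᶜ := by
      rw [Finset.set_biInter_insert]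
      ext x
      simp only [Set.mem_inter_iff]
      tauto
    have h5 : ((⋂ e ∈ P, B e) ∩ ⋂ e ∈ Q, (B e)ᶜ) ∩ (B q)ᶜ =
        (⋂ e ∈ P, B e) ∩ ⋂ e ∈ insert q Q, (B e)ᶜ := by
      rw [Finset.set_biInter_insert]
      ext x
      simp only [Set.mem_inter_iff]
      tauto
    rw [h4, h5, h1, h2, Finset.prod_insert hqP] at h3
    rw [Finset.prod_insert hq]
    linear_combination h3

/-- independent events which are neither impossible nor certain occur in all patterns -/
lemma pattern_exists (μ : Fin n → Fin 2 → ℝ) (B : ι → Set (Fin n → Fin 2)) (k : ℕ)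
    (hind : ∀ F : Finset ι, F.card ≤ k → prob μ (⋂ e ∈ F, B e) = ∏ e ∈ F, prob μ (B e))
    (F : Finset ι) (hF : F.card ≤ k) (hp : ∀ e ∈ F, 0 < prob μ (B e) ∧ prob μ (B e) < 1)
    (y : ι → Bool) : ∃ x, ∀ e ∈ F, (x ∈ B e ↔ y e = true) := by
  have h1 := pattern μ B k hind (F.filter (fun e => y e = false)) (F.filter (fun e => y e = true))
    (by
      rw [Finset.disjoint_left]
      intro e h h'
      rw [Finset.mem_filter] at h h'
      rw [h.2] at h'
      exact absurd h'.2 (by simp))
    (by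
      refine (Finset.card_le_card ?_).trans hF
      exact Finset.union_subset (Finset.filter_subset _ _) (Finset.filter_subset _ _))
  have h2 : 0 < prob μ ((⋂ e ∈ F.filter (fun e => y e = true), B e) ∩
      ⋂ e ∈ F.filter (fun e => y e = false), (B e)ᶜ) := by
    rw [h1]
    apply mul_pos
    · exact Finset.prod_pos (fun e he => (hp e (Finset.mem_filter.1 he).1).1)
    · exact Finset.prod_pos (fun e he => by
        have := (hp e (Finset.mem_filter.1 he).1).2
        linarith)
  obtain ⟨x, hx⟩ : ((⋂ e ∈ F.filter (fun e => y e = true), B e) ∩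
      ⋂ e ∈ F.filter (fun e => y e = false), (B e)ᶜ).Nonempty := by
    by_contra h
    rw [Set.not_nonempty_iff_eq_empty] at h
    rw [h] at h2
    have : prob μ (∅ : Set (Fin n → Fin 2)) = 0 := by simp [prob]
    rw [this] at h2
    exact lt_irrefl _ h2
  simp only [Set.mem_inter_iff, Set.mem_iInter, Finset.mem_filter, Set.mem_compl_iff] at hx
  refine ⟨x, fun e he => ?_⟩
  cases hy : y e
  · simp [hx.2 e ⟨he, hy⟩]
  · simp [hx.1 e ⟨he, hy⟩]

/-- the sum of the bits `s`, `t` of `0, x 0, …` -/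
def Sum2 (s t : ι → Fin (n + 1)) : ι → (Fin n → Bool) → Bool :=
  fun e x => xor (ex x (s e)) (ex x (t e))

/-- sums of bits along a forest -/
theorem forest_sh {s t : ι → Fin (n + 1)} (hst : ∀ e, s e ≠ t e) (F : Finset ι)
    (hinj : Set.InjOn (fun e => s(s e, t e)) (F : Set ι))
    (hg : (pairGraph s t F).IsAcyclic) : Sh (Sum2 s t) F := by
  intro y
  have hsub : ∀ S : Finset ι, S.card ≤ F.card → S ⊆ F →
      prob (fair (Fin n)) (⋂ e ∈ S, Dif (s e) (t e)) = (1 / 2) ^ S.card := by
    intro S _ hS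
    refine dif_indep (k := S.card) hst S (hinj.mono (by exact_mod_cast hS)) ?_ le_rfl
    have hle : pairGraph s t S ≤ pairGraph s t F := by
      rintro u w ⟨h, e, he, h'⟩
      exact ⟨h, e, hS he, h'⟩
    rw [(hg.anti hle).egirth_eq_top]
    exact ENat.natCast_lt_top _
  -- restrict to the members of `F`
  have hF : ∀ S : Finset F, prob (fair (Fin n)) (⋂ e ∈ S, Dif (s e) (t e)) =
      (1 / 2) ^ S.card := by
    intro S
    have h1 := hsub (S.map ⟨Subtype.val, Subtype.val_injective⟩)
      (Finset.card_le_card (fun e he => by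
        obtain ⟨a, -, rfl⟩ := Finset.mem_map.1 he
        exact a.2)) (fun e he => by
        obtain ⟨a, -, rfl⟩ := Finset.mem_map.1 he
        exact a.2)
    rw [Finset.card_map] at h1
    rw [← h1]
    congr 1
    ext x
    simp
  have hp : ∀ e : F, prob (fair (Fin n)) (Dif (s e) (t e)) = 1 / 2 := by
    intro e
    have := hF {e}
    simpa using this
  obtain ⟨x, hx⟩ := pattern_exists (fair (Fin n)) (fun e : F => Dif (s e) (t e))
    (Finset.univ : Finset F).card (fun S _ => by
      rw [hF S]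
      simp only [hp, Finset.prod_const]) Finset.univ le_rfl (fun e _ => by
      rw [hp]; norm_num) (fun e => y e)
  refine ⟨fun v => decide (x v = 1), fun e he => ?_⟩
  have h1 := hx ⟨e, he⟩ (mem_univ _)
  have h2 : ∀ v : Fin (n + 1), ex (fun v => decide (x v = 1)) v =
      decide ((Fin.cons 0 x : Fin (n + 1) → Fin 2) v = 1) := by
    intro v
    refine Fin.cases ?_ (fun v => ?_) v
    · simp
    · simp
  unfold Sum2
  rw [h2, h2]
  have h3 : ∀ a b : Fin 2, ∀ y : Bool, (a ≠ b ↔ y = true) →
      (decide (a = 1) ^^ decide (b = 1)) = y := by decide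
  exact h3 _ _ _ h1

/-- sums which take all patterns are along a forest -/
theorem sum2_edge (s t : ι → Fin (n + 1)) (e : ι) : EdgeOf (Sum2 s t e) (s e) (t e) :=
  Or.inl ⟨false, fun x => by simp [Sum2]⟩

end Pool.Agent.H56.QU
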